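import Pool.Agent.W500.FL.Stm

/-!
# Pellet's formula
-/

set_option autoImplicit false

namespace Pool.Agent.W891.FL

open Polynomial Pool.Agent.W500.FL

theorem tri_add (n m : ℕ) : (n + m) * (n + m - 1) / 2 =
    n * (n - 1) / 2 + m * (m - 1) / 2 + n * m := by
  induction m with
  | zero => simp
  | succ m ih =>
    rw [← add_assoc, Nat.triangle_succ, Nat.triangle_succ, ih]
    ring

theorem main : S_LAM → S_J → S_IRR → S_PEL := by
  intro hL hJ hI K _ _ _ hK
  obtain ⟨l1, l2, l3, -⟩ := hL K
  obtain ⟨j1, j2, j3, j4, j5, -, j7⟩ := hJ K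
  have hs : (quadraticChar K (-1)) ^ 2 = 1 := quadraticChar_sq_one (by simp)
  have key : ∀ (N : ℕ) (G : K[X]), G.natDegree = N → G.Monic → jac G (derivative G) ≠ 0 →
      lam G = (-1) ^ G.natDegree * quadraticChar K (-1) ^ (G.natDegree * (G.natDegree - 1) / 2)
        * jac G (derivative G) := by
    intro N
    induction N using Nat.strong_induction_on with
    | _ N ih =>
      intro G hN hG hne
      by_cases hu : IsUnit G
      · have h1 : G = 1 := hG.eq_one_of_isUnit hu
        subst h1
        have h2 := j4 1 0 monic_one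
        rw [C_0, natDegree_one, pow_zero] at h2
        rw [l3 1 isUnit_one, natDegree_one, derivative_one, h2]
        simp
      · obtain ⟨P, hP, hPi, G1, rfl⟩ := Polynomial.exists_monic_irreducible_factor G hu
        have hG1 : G1.Monic := hP.of_mul_monic_left hG
        have hdeg : (P * G1).natDegree = P.natDegree + G1.natDegree := hP.natDegree_mul hG1
        have hPd : 0 < P.natDegree := hPi.natDegree_pos
        have e1 : jac P (derivative (P * G1)) = jac P (derivative P) * jac P G1 := by
          rw [← j1 _ _ _ hP]
          refine j3 _ _ _ hP ⟨derivative G1, ?_⟩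
          rw [derivative_mul]
          ring
        have e2 : jac G1 (derivative (P * G1)) = jac G1 P * jac G1 (derivative G1) := by
          rw [← j1 _ _ _ hG1]
          refine j3 _ _ _ hG1 ⟨derivative P, ?_⟩
          rw [derivative_mul]
          ring
        have e3 := j5 P G1 hP hG1
        have e4 : jac (P * G1) (derivative (P * G1)) = jac P (derivative P) * jac P G1 *
            (jac G1 P * jac G1 (derivative G1)) := by
          rw [j2 _ _ _ hP hG1, e1, e2]
        rw [e4] at hne
        have hne1 : jac G1 P ≠ 0 := fun h => hne (by rw [h]; ring)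
        have hne2 : jac G1 (derivative G1) ≠ 0 := fun h => hne (by rw [h]; ring)
        have e5 : jac G1 P ^ 2 = 1 := by
          rcases j7 _ _ hne1 with h | h <;> rw [h] <;> norm_num
        have e6 := ih G1.natDegree (by omega) G1 rfl hG1 hne2
        have e7 := hI K hK P hP hPi
        rw [l1 _ _ hP.ne_zero hG1.ne_zero, l2 P hPi, e4, e3, e7, hdeg, tri_add, e6]
        generalize quadraticChar K (-1) = s at hs ⊢
        generalize jac G1 (derivative G1) = z
        generalize jac G1 P = y at e5 ⊢
        generalize hn : P.natDegree = n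
        generalize hm : G1.natDegree = m
        generalize n * (n - 1) / 2 = a
        generalize m * (m - 1) / 2 = b
        have f1 : ((-1 : ℤ) ^ n) ^ 2 = 1 := by rw [← pow_mul, mul_comm, pow_mul]; norm_num
        have f2 : (s ^ a) ^ 2 = 1 := by rw [← pow_mul, mul_comm, pow_mul, hs, one_pow]
        have f3 : (s ^ (n * m)) ^ 2 = 1 := by rw [← pow_mul, mul_comm, pow_mul, hs, one_pow]
        rw [pow_add, pow_add, pow_add]
        have f4 : (-1 : ℤ) ^ n * (-1) ^ m * (s ^ a * s ^ b * s ^ (n * m)) *
            (-(-1) ^ n * s ^ a * (s ^ (n * m) * y) * (y * z)) =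
            -(((-1 : ℤ) ^ n) ^ 2 * (s ^ a) ^ 2 * (s ^ (n * m)) ^ 2 * y ^ 2 *
              ((-1) ^ m * s ^ b * z)) := by ring
        rw [f4, f1, f2, f3, e5]
        ring
  exact fun G hG hne => key G.natDegree G rfl hG hne

end Pool.Agent.W891.FL
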